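import Pool.Agent.Lib.MP_defcf3_al.BR.H22.Rel

/-!
Module FIX of project BR7 (MP_defcf3_al).
-/

namespace BR7.H22

universe u

open BR7

theorem t_cubic {Ω : Type u} [Field Ω] (z w : Ω) (hw : z * w = 1)
    (hs : 1 + z + z ^ 2 + z ^ 3 + z ^ 4 + z ^ 5 + z ^ 6 = 0) :
    (z + w) ^ 3 + (z + w) ^ 2 - 2 * (z + w) - 1 = 0 := by
  linear_combination w ^ 3 * hs - (w ^ 2 + w * (z * w + 1) +
    ((z * w) ^ 2 + z * w + 1) * (1 + z + z ^ 2 + z ^ 3)) * hw + (3 * z + 3 * w + 2) * hw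

/-- Sum of the powers of a primitive 7th root. -/
theorem geom7 {Ω : Type u} [Field Ω] {z : Ω} (h : IsPrimitiveRoot z 7) :
    1 + z + z ^ 2 + z ^ 3 + z ^ 4 + z ^ 5 + z ^ 6 = 0 := by
  have h := h.geom_sum_eq_zero (by norm_num)
  simp only [Finset.sum_range_succ, Finset.sum_range_zero] at h
  linear_combination h

/-- 1, t, t^2 are linearly independent over F when γ ζ = ζ^3. -/
theorem indep3 {F Ω : Type u} [Field F] [Field Ω] [Algebra F Ω] (ζ : Ωˣ) (γ : Ω ≃ₐ[F] Ω)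
    (hζ : IsPrimitiveRoot ζ 7) (hγ : γ • ζ = ζ ^ 3) (a b c : F)
    (h : algebraMap F Ω a + algebraMap F Ω b * ((ζ : Ω) + (ζ : Ω)⁻¹) +
      algebraMap F Ω c * ((ζ : Ω) + (ζ : Ω)⁻¹) ^ 2 = 0) : a = 0 ∧ b = 0 ∧ c = 0 := by
  have hz0 : (ζ : Ω) ≠ 0 := ζ.ne_zero
  have hζ' : IsPrimitiveRoot (ζ : Ω) 7 := IsPrimitiveRoot.coe_units_iff.2 hζ
  have h7 : (ζ : Ω) ^ 7 = 1 := hζ'.pow_eq_one
  have hs := geom7 hζ'
  have hγz : γ (ζ : Ω) = (ζ : Ω) ^ 3 := by
    have := congrArg (fun x : Ωˣ => (x : Ω)) hγ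
    simpa using this
  generalize (ζ : Ω) = z at *
  have hinv : z⁻¹ = z ^ 6 := by
    field_simp
    linear_combination -h7
  rw [hinv] at h
  have h1 := congrArg γ h
  simp only [map_add, map_mul, map_pow, hγz, AlgEquiv.commutes, map_zero] at h1
  have h2 := congrArg γ h1
  simp only [map_add, map_mul, map_pow, hγz, AlgEquiv.commutes, map_zero] at h2
  -- the three conjugates
  have e1 : (z ^ 3) ^ 6 = z ^ 4 := by
    have : (z ^ 3) ^ 6 = z ^ 4 * (z ^ 7) ^ 2 := by ring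
    rw [this, h7]; ring
  have e2 : (((z ^ 3) ^ 3) ^ 6) = z ^ 5 := by
    have : (((z ^ 3) ^ 3) ^ 6) = z ^ 5 * (z ^ 7) ^ 7 := by ring
    rw [this, h7]; ring
  have e3 : (z ^ 3) ^ 3 = z ^ 2 := by
    have : (z ^ 3) ^ 3 = z ^ 2 * z ^ 7 := by ring
    rw [this, h7]; ring
  rw [e1] at h1
  rw [e2, e3] at h2
  have hne : ∀ i j : ℕ, i < 7 → j < 7 → i ≠ j → z ^ i ≠ z ^ j := by
    intro i j hi hj hij he
    exact hij (hζ'.pow_inj hi hj he)
  -- differences of the conjugates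
  have d1 : z + z ^ 6 ≠ z ^ 3 + z ^ 4 := by
    intro he
    have h0 : (z - z ^ 3) * (1 - z ^ 3) = 0 := by
      have : (z - z ^ 3) * (1 - z ^ 3) = z + z ^ 6 - (z ^ 3 + z ^ 4) := by ring
      rw [this, he, sub_self]
    rcases mul_eq_zero.1 h0 with h0 | h0
    · exact hne 1 3 (by norm_num) (by norm_num) (by norm_num) (by rw [pow_one]; exact sub_eq_zero.1 h0)
    · exact hne 0 3 (by norm_num) (by norm_num) (by norm_num) (by rw [pow_zero]; exact sub_eq_zero.1 h0)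
  have d2 : z + z ^ 6 ≠ z ^ 2 + z ^ 5 := by
    intro he
    have h0 : (z - z ^ 2) * (1 - z ^ 4) = 0 := by
      have : (z - z ^ 2) * (1 - z ^ 4) = z + z ^ 6 - (z ^ 2 + z ^ 5) := by ring
      rw [this, he, sub_self]
    rcases mul_eq_zero.1 h0 with h0 | h0
    · exact hne 1 2 (by norm_num) (by norm_num) (by norm_num) (by rw [pow_one]; exact sub_eq_zero.1 h0)
    · exact hne 0 4 (by norm_num) (by norm_num) (by norm_num) (by rw [pow_zero]; exact sub_eq_zero.1 h0)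
  have d3 : z ^ 3 + z ^ 4 ≠ z ^ 2 + z ^ 5 := by
    intro he
    have h0 : (z ^ 2 - z ^ 3) * (z ^ 2 - 1) = 0 := by
      have : (z ^ 2 - z ^ 3) * (z ^ 2 - 1) = z ^ 3 + z ^ 4 - (z ^ 2 + z ^ 5) := by ring
      rw [this, he, sub_self]
    rcases mul_eq_zero.1 h0 with h0 | h0
    · exact hne 2 3 (by norm_num) (by norm_num) (by norm_num) (sub_eq_zero.1 h0)
    · exact hne 2 0 (by norm_num) (by norm_num) (by norm_num) (by rw [pow_zero]; exact sub_eq_zero.1 h0)
  generalize z + z ^ 6 = x at *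
  generalize z ^ 3 + z ^ 4 = y at *
  generalize z ^ 2 + z ^ 5 = w at *
  have hinj : ∀ f : F, algebraMap F Ω f = 0 → f = 0 := fun f hf => by
    simpa using hf
  generalize ha : algebraMap F Ω a = A at *
  generalize hb : algebraMap F Ω b = B at *
  generalize hc : algebraMap F Ω c = D at *
  have f1 : (x - y) * (B + D * (x + y)) = 0 := by linear_combination h - h1
  have f2 : (x - w) * (B + D * (x + w)) = 0 := by linear_combination h - h2
  have g1 : B + D * (x + y) = 0 := by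
    rcases mul_eq_zero.1 f1 with h0 | h0
    · exact absurd (sub_eq_zero.1 h0) d1
    · exact h0
  have g2 : B + D * (x + w) = 0 := by
    rcases mul_eq_zero.1 f2 with h0 | h0
    · exact absurd (sub_eq_zero.1 h0) d2
    · exact h0
  have g3 : D * (y - w) = 0 := by linear_combination g1 - g2
  have hD : D = 0 := by
    rcases mul_eq_zero.1 g3 with h0 | h0
    · exact h0
    · exact absurd (sub_eq_zero.1 h0) d3
  have hB : B = 0 := by rw [hD] at g1; simpa using g1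
  have hA : A = 0 := by rw [hD, hB] at h; simpa using h
  exact ⟨hinj a (by rw [ha, hA]), hinj b (by rw [hb, hB]), hinj c (by rw [hc, hD])⟩

theorem fix : FixStatement.{u} := by
  intro F Ω _ _ _ _ ζ γ hζ hγ κ hκ hκ3
  have hcoe : ∀ (g : Ω ≃ₐ[F] Ω) (x : Ωˣ), ((g • x : Ωˣ) : Ω) = g x := fun g x => rfl
  have hz0 : (ζ : Ω) ≠ 0 := ζ.ne_zero
  have hζ' : IsPrimitiveRoot (ζ : Ω) 7 := IsPrimitiveRoot.coe_units_iff.2 hζ
  have h7 : (ζ : Ω) ^ 7 = 1 := hζ'.pow_eq_one
  have hs := geom7 hζ'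
  have hγz : γ (ζ : Ω) = (ζ : Ω) ^ 3 := by
    have := congrArg (fun x : Ωˣ => (x : Ω)) hγ
    simpa using this
  have hinv : (ζ : Ω)⁻¹ = (ζ : Ω) ^ 6 := by
    field_simp
    linear_combination -h7
  set t : Ω := (ζ : Ω) + (ζ : Ω)⁻¹ with ht
  have hzw : (ζ : Ω) * (ζ : Ω)⁻¹ = 1 := mul_inv_cancel₀ hz0
  have htc := t_cubic (ζ : Ω) (ζ : Ω)⁻¹ hzw hs
  rw [← ht] at htc
  have h1s : (1 : Ω) ∈ Submodule.span F ({1, t, t ^ 2} : Set Ω) := Submodule.subset_span (by simp)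
  have hts : t ∈ Submodule.span F ({1, t, t ^ 2} : Set Ω) := Submodule.subset_span (by simp)
  have ht2s : t ^ 2 ∈ Submodule.span F ({1, t, t ^ 2} : Set Ω) := Submodule.subset_span (by simp)
  have ht3 : t ^ 3 ∈ Submodule.span F ({1, t, t ^ 2} : Set Ω) := by
    have e : t ^ 3 = (1 : F) • (1 : Ω) + (2 : F) • t - (1 : F) • t ^ 2 := by
      simp only [Algebra.smul_def, map_one, map_ofNat]
      linear_combination htc
    rw [e]
    exact Submodule.sub_mem _ (Submodule.add_mem _ (Submodule.smul_mem _ _ h1s)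
      (Submodule.smul_mem _ _ hts)) (Submodule.smul_mem _ _ ht2s)
  have hmul := mul_mem_span3 t ht3
  have hcommon : ∀ (g : Ω ≃ₐ[F] Ω), g t = t → ∀ x ∈ Submodule.span F ({1, t, t ^ 2} : Set Ω), g x = x := by
    intro g hg x hx
    induction hx using Submodule.span_induction with
    | mem x hx =>
      rcases hx with rfl | rfl | rfl
      · exact map_one g
      · exact hg
      · rw [map_pow, hg]
    | zero => exact map_zero g
    | add x y _ _ hx hy => rw [map_add, hx, hy]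
    | smul c x _ hx => rw [map_smul, hx]
  -- every element of F[ζ] is u + v ζ
  have huv : ∀ n : ℕ, ∃ u ∈ Submodule.span F ({1, t, t ^ 2} : Set Ω),
      ∃ v ∈ Submodule.span F ({1, t, t ^ 2} : Set Ω), (ζ : Ω) ^ n = u + v * ζ := by
    intro n
    induction n with
    | zero => exact ⟨1, h1s, 0, Submodule.zero_mem _, by simp⟩
    | succ n ih =>
      obtain ⟨u, hu, v, hv, e⟩ := ih
      refine ⟨-v, Submodule.neg_mem _ hv, u + t * v, Submodule.add_mem _ hu (hmul _ hv), ?_⟩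
      have e2 : (ζ : Ω) ^ 2 = t * ζ - 1 := by
        rw [ht]; linear_combination -hzw
      calc (ζ : Ω) ^ (n + 1) = (ζ : Ω) ^ n * ζ := pow_succ _ _
        _ = u * ζ + v * (ζ : Ω) ^ 2 := by rw [e]; ring
        _ = _ := by rw [e2]; ring
  have huvx : ∀ x ∈ Algebra.adjoin F {(ζ : Ω)}, ∃ u ∈ Submodule.span F ({1, t, t ^ 2} : Set Ω),
      ∃ v ∈ Submodule.span F ({1, t, t ^ 2} : Set Ω), x = u + v * ζ := by
    intro x hx
    rw [Algebra.adjoin_singleton_eq_range_aeval] at hx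
    obtain ⟨p, rfl⟩ := hx
    change ∃ u ∈ _, ∃ v ∈ _, Polynomial.aeval (ζ : Ω) p = u + v * ζ
    rw [Polynomial.aeval_eq_sum_range]
    generalize Finset.range (p.natDegree + 1) = s
    induction s using Finset.induction_on with
    | empty => exact ⟨0, Submodule.zero_mem _, 0, Submodule.zero_mem _, by simp⟩
    | insert i s hi ih =>
      obtain ⟨u, hu, v, hv, e⟩ := ih
      obtain ⟨u', hu', v', hv', e'⟩ := huv i
      rw [Finset.sum_insert hi, e, e']
      refine ⟨p.coeff i • u' + u, Submodule.add_mem _ (Submodule.smul_mem _ _ hu') hu,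
        p.coeff i • v' + v, Submodule.add_mem _ (Submodule.smul_mem _ _ hv') hv, ?_⟩
      simp only [Algebra.smul_def]
      ring
  have hκL : (κ : Ω) ∈ Algebra.adjoin F {(ζ : Ω)} := by
    apply mem_adjoin_of_fixed
    intro g hg
    rw [← hcoe, hκ g hg]
  obtain ⟨u, hu, v, hv, e⟩ := huvx _ hκL
  -- κ lies in F + F t + F t^2
  have hγ3 : (γ ^ 3 : Ω ≃ₐ[F] Ω) (ζ : Ω) = (ζ : Ω) ^ 6 := by
    have : (γ ^ 3 : Ω ≃ₐ[F] Ω) (ζ : Ω) = γ (γ (γ (ζ : Ω))) := rfl
    rw [this, hγz, map_pow, hγz, map_pow, map_pow, hγz]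
    have e : (((ζ : Ω) ^ 3) ^ 3) ^ 3 = (ζ : Ω) ^ 6 * ((ζ : Ω) ^ 7) ^ 3 := by ring
    rw [e, h7]; ring
  have hγ3t : (γ ^ 3 : Ω ≃ₐ[F] Ω) t = t := by
    rw [ht, map_add, map_inv₀, hγ3, hinv]
    have e : ((ζ : Ω) ^ 6)⁻¹ = ζ := by rw [← hinv, inv_inv]
    rw [e]; ring
  have hκu : (κ : Ω) = u := by
    have h1 : (γ ^ 3 : Ω ≃ₐ[F] Ω) (κ : Ω) = κ := by rw [← hcoe, hκ3]
    rw [e, map_add, map_mul, hcommon _ hγ3t u hu, hcommon _ hγ3t v hv, hγ3] at h1
    have h2 : v * (ζ : Ω) * ((ζ : Ω) ^ 5 - 1) = 0 := by linear_combination h1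
    have h3 : (ζ : Ω) ^ 5 - 1 ≠ 0 := by
      intro h0
      have := hζ'.pow_inj (i := 5) (j := 0) (by norm_num) (by norm_num) (by rw [pow_zero]; linear_combination h0)
      norm_num at this
    have hv0 : v = 0 := by
      rcases mul_eq_zero.1 h2 with h0 | h0
      · rcases mul_eq_zero.1 h0 with h0 | h0
        · exact h0
        · exact absurd h0 hz0
      · exact absurd h0 h3
    rw [e, hv0]; ring
  -- four vectors
  have hκspan : (κ : Ω) ∈ Submodule.span F ({1, t, t ^ 2} : Set Ω) := by rw [hκu]; exact hu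
  have hκt : t * (κ : Ω) ∈ Submodule.span F ({1, t, t ^ 2} : Set Ω) := hmul _ hκspan
  have hκt2 : t * (t * (κ : Ω)) ∈ Submodule.span F ({1, t, t ^ 2} : Set Ω) := hmul _ hκt
  obtain ⟨g, hg, i, hi⟩ := dep4 (E := F) t
    ![(κ : Ω) * (3 + 2 * t), κ * (1 + t + t ^ 2), -(3 + 2 * t), -(1 + t + t ^ 2)] (by
    have hA : (κ : Ω) * (3 + 2 * t) ∈ Submodule.span F ({1, t, t ^ 2} : Set Ω) := by
      have e : (κ : Ω) * (3 + 2 * t) = (3 : F) • (κ : Ω) + (2 : F) • (t * κ) := by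
        simp only [Algebra.smul_def, map_ofNat]; ring
      rw [e]
      exact Submodule.add_mem _ (Submodule.smul_mem _ _ hκspan) (Submodule.smul_mem _ _ hκt)
    have hB : (κ : Ω) * (1 + t + t ^ 2) ∈ Submodule.span F ({1, t, t ^ 2} : Set Ω) := by
      have e : (κ : Ω) * (1 + t + t ^ 2) = (κ : Ω) + t * κ + t * (t * κ) := by ring
      rw [e]
      exact Submodule.add_mem _ (Submodule.add_mem _ hκspan hκt) hκt2
    have hC : -(3 + 2 * t) ∈ Submodule.span F ({1, t, t ^ 2} : Set Ω) := by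
      have e : -(3 + 2 * t) = -((3 : F) • (1 : Ω) + (2 : F) • t) := by
        simp only [Algebra.smul_def, map_ofNat]; ring
      rw [e]
      exact Submodule.neg_mem _ (Submodule.add_mem _ (Submodule.smul_mem _ _ h1s) (Submodule.smul_mem _ _ hts))
    have hD : -(1 + t + t ^ 2) ∈ Submodule.span F ({1, t, t ^ 2} : Set Ω) :=
      Submodule.neg_mem _ (Submodule.add_mem _ (Submodule.add_mem _ h1s hts) ht2s)
    intro i
    fin_cases i
    · exact hA
    · exact hB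
    · exact hC
    · exact hD)
  simp only [Fin.sum_univ_four, Matrix.cons_val_zero, Matrix.cons_val_one, Matrix.cons_val,
    Algebra.smul_def] at hg
  have hrel : (κ : Ω) * lineX t (algebraMap F Ω (g 0)) (algebraMap F Ω (g 1)) =
      lineX t (algebraMap F Ω (g 2)) (algebraMap F Ω (g 3)) := by
    simp only [lineX]
    linear_combination hg
  -- zeros of lineX
  have hzero : ∀ r q : F, lineX t (algebraMap F Ω r) (algebraMap F Ω q) = 0 → r = 0 ∧ q = 0 := by
    intro r q h0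
    have h1 : algebraMap F Ω (3 * r + q) + algebraMap F Ω (2 * r + q) * ((ζ : Ω) + (ζ : Ω)⁻¹) +
      algebraMap F Ω q * ((ζ : Ω) + (ζ : Ω)⁻¹) ^ 2 = 0 := by
      rw [← ht]
      simp only [lineX] at h0
      simp only [map_add, map_mul, map_ofNat]
      linear_combination h0
    obtain ⟨h2, h3, h4⟩ := indep3 ζ γ hζ hγ _ _ _ h1
    refine ⟨?_, h4⟩
    linear_combination h2 - h3
  have hκ0 : (κ : Ω) ≠ 0 := κ.ne_zero
  have hw2 : lineX t (algebraMap F Ω (g 0)) (algebraMap F Ω (g 1)) ≠ 0 := by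
    intro h0
    have h1 : lineX t (algebraMap F Ω (g 2)) (algebraMap F Ω (g 3)) = 0 := by
      rw [← hrel, h0, mul_zero]
    obtain ⟨a0, a1⟩ := hzero _ _ h0
    obtain ⟨a2, a3⟩ := hzero _ _ h1
    apply hi
    fin_cases i
    · exact a0
    · exact a1
    · exact a2
    · exact a3
  have hw1 : lineX t (algebraMap F Ω (g 2)) (algebraMap F Ω (g 3)) ≠ 0 := by
    rw [← hrel]
    exact mul_ne_zero hκ0 hw2
  refine ⟨g 2, g 3, g 0, g 1, Units.mk0 _ hw1, Units.mk0 _ hw2, rfl, rfl, ?_⟩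
  apply Units.ext
  simp only [Units.val_mul, Units.val_mk0]
  exact hrel

end BR7.H22
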