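import Pool.Agent.Lib.MP_defcf3_al.BR.BaseC

/-!
Module H90 of project BR7 (MP_defcf3_al): Hilbert 90 for continuous cocycles.
-/

namespace BR7.H22

universe u

open BR7

theorem h90 : H90Statement.{u} := by
  classical
  intro F Ω _ _ _ _ H hH U hU c hc hcoc
  have hHcl : IsClosed (H : Set (Ω ≃ₐ[F] Ω)) := H.isClosed_of_isOpen hH
  have : CompactSpace H := isCompact_iff_compactSpace.mp hHcl.isCompact
  have hUcl := U.isClosed_of_isOpen hU
  have : CompactSpace U := isCompact_iff_compactSpace.mp hUcl.isCompact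
  have c1 : c 1 = 1 := by
    have h := hcoc 1 1
    rw [mul_one, one_smul] at h
    exact (mul_eq_left.1 h.symm)
  let V : Subgroup U :=
    { carrier := {v | c v = 1}
      mul_mem' := by
        intro v w hv hw
        change c (v * w) = 1
        rw [hcoc, show c v = 1 from hv, show c w = 1 from hw, smul_one, mul_one]
      one_mem' := c1
      inv_mem' := by
        intro v hv
        change c v⁻¹ = 1
        have h := hcoc v v⁻¹
        rw [mul_inv_cancel, c1, show c v = 1 from hv, one_mul] at h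
        have h2 := congrArg (fun x => v⁻¹ • x) h
        simpa using h2.symm }
  have hVmem : ∀ v : U, v ∈ V ↔ c v = 1 := fun v => Iff.rfl
  have hV : IsOpen (V : Set U) := hc.isOpen_fiber 1
  have : Finite (U ⧸ V) := V.quotient_finite_of_isOpen hV
  have : Fintype (U ⧸ V) := Fintype.ofFinite _
  let ι : U →* (Ω ≃ₐ[F] Ω) := H.subtype.comp U.subtype
  have hιc : Continuous ι := continuous_subtype_val.comp continuous_subtype_val
  have hιi : Function.Injective ι := Subtype.val_injective.comp Subtype.val_injective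
  let V' : Subgroup (Ω ≃ₐ[F] Ω) := V.map ι
  have hV' : IsClosed (V' : Set (Ω ≃ₐ[F] Ω)) := by
    have hcl : IsClosed (V : Set U) := V.isClosed_of_isOpen hV
    have : IsCompact (ι '' (V : Set U)) := hcl.isCompact.image hιc
    exact this.isClosed
  let K : IntermediateField F Ω := IntermediateField.fixedField V'
  have hKfix : K.fixingSubgroup = V' :=
    InfiniteGalois.fixingSubgroup_fixedField (k := F) (K := Ω) (⟨V', hV'⟩ : ClosedSubgroup (Ω ≃ₐ[F] Ω))
  have hKV : ∀ x ∈ K, ∀ v ∈ V, (ι v) x = x := by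
    intro x hx v hv
    exact (IntermediateField.mem_fixedField_iff V' x).1 hx (ι v) ⟨v, hv, rfl⟩
  have hsm : ∀ (g : U) (x : Ωˣ), ((g • x : Ωˣ) : Ω) = (ι g) x := fun g x => rfl
  let φ : U ⧸ V → (K →* Ω) := fun q =>
    { toFun := fun x => (ι q.out) (x : Ω)
      map_one' := by simp
      map_mul' := by intro x y; simp }
  have hφ : Function.Injective φ := by
    intro q q' h
    have h1 : ι (q.out⁻¹ * q'.out) ∈ K.fixingSubgroup := by
      rw [IntermediateField.mem_fixingSubgroup_iff]
      intro x hx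
      have h2 := DFunLike.congr_fun h (⟨x, hx⟩ : K)
      change (ι q.out) x = (ι q'.out) x at h2
      rw [map_mul, map_inv, AlgEquiv.mul_apply, ← h2]
      exact AlgEquiv.symm_apply_apply (ι q.out) x
    rw [hKfix] at h1
    obtain ⟨v, hv, e⟩ := h1
    have e' := hιi e
    rw [e'] at hv
    have h3 := QuotientGroup.eq.2 hv
    rwa [QuotientGroup.out_eq', QuotientGroup.out_eq'] at h3
  have hli : LinearIndependent Ω (fun q => (φ q : K → Ω)) :=
    (linearIndependent_monoidHom K Ω).comp φ hφ
  -- a good x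
  obtain ⟨x, hx⟩ : ∃ x : K, ∑ q : U ⧸ V, (c q.out : Ω) * (ι q.out) (x : Ω) ≠ 0 := by
    by_contra hcon
    push Not at hcon
    rw [Fintype.linearIndependent_iff] at hli
    have h := hli (fun q => (c q.out : Ω)) (by
      funext x
      rw [Finset.sum_apply]
      exact hcon x) (QuotientGroup.mk 1)
    exact (c _).ne_zero h
  set b : Ω := ∑ q : U ⧸ V, (c q.out : Ω) * (ι q.out) (x : Ω) with hb
  have key : ∀ g : U, (c g : Ω) * (ι g) b = b := by
    intro g
    rw [hb, map_sum, Finset.mul_sum]
    rw [← Equiv.sum_comp (MulAction.toPerm g : Equiv.Perm (U ⧸ V))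
      (fun q : U ⧸ V => (c q.out : Ω) * (ι q.out) (x : Ω))]
    apply Finset.sum_congr rfl
    intro q _
    simp only [MulAction.toPerm_apply]
    -- representatives
    have hrep : ((g • q).out)⁻¹ * (g * q.out) ∈ V := by
      rw [← QuotientGroup.eq, QuotientGroup.out_eq']
      rw [← smul_eq_mul, ← MulAction.Quotient.smul_mk, QuotientGroup.out_eq']
    obtain ⟨v, hv, e⟩ : ∃ v ∈ V, g * q.out = (g • q).out * v := ⟨_, hrep, by group⟩
    have e1 : c g * (g • c q.out) = c (g • q).out := by
      rw [← hcoc, e, hcoc, (hVmem v).1 hv, smul_one, mul_one]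
    have e2 : (ι g) ((ι q.out) (x : Ω)) = (ι (g • q).out) (x : Ω) := by
      rw [← AlgEquiv.mul_apply, ← map_mul, e, map_mul, AlgEquiv.mul_apply, hKV _ x.2 v hv]
    have e1' := congrArg (fun y : Ωˣ => (y : Ω)) e1
    simp only [Units.val_mul] at e1'
    rw [map_mul, e2, ← mul_assoc, ← e1', hsm]
  refine ⟨(Units.mk0 b hx)⁻¹, fun g => ?_⟩
  have hgb : (ι g) b ≠ 0 := by
    intro h0
    have := key g
    rw [h0, mul_zero] at this
    exact hx this.symm
  rw [smul_inv', inv_inv]
  have e3 : g • Units.mk0 b hx = Units.mk0 ((ι g) b) hgb := Units.ext rfl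
  rw [e3, eq_inv_mul_iff_mul_eq, mul_comm]
  apply Units.ext
  simp only [Units.val_mul, Units.val_mk0]
  exact key g

end BR7.H22
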