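import Pool.Agent.Lib.MP_defcf3_al.BR.BaseC

/-!
Module KUM of project BR7 (MP_defcf3_al): Kummer characters.
-/

namespace BR7.H22

universe u

open BR7

theorem lc_smul {G A : Type*} [Group G] [TopologicalSpace G] [IsTopologicalGroup G] [CommGroup A]
    [MulDistribMulAction G A] (hd : Disc G A) (a : A) : IsLocallyConstant (fun g : G => g • a) := by
  rw [IsLocallyConstant.iff_isOpen_fiber]
  intro y
  by_cases h : ∃ g0 : G, g0 • a = y
  · obtain ⟨g0, rfl⟩ := h
    have e : {g : G | g • a = g0 • a} = (fun g => g0⁻¹ * g) ⁻¹' {g : G | g • a = a} := by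
      ext g
      simp only [Set.mem_ofPred_eq, Set.mem_preimage, mul_smul]
      rw [inv_smul_eq_iff]
    change IsOpen {g : G | g • a = g0 • a}
    rw [e]
    exact (hd a).preimage (continuous_const.mul continuous_id)
  · have e : {g : G | g • a = y} = ∅ := by
      ext g
      simp only [Set.mem_ofPred_eq, Set.mem_empty_iff_false, iff_false]
      exact fun hg => h ⟨g, hg⟩
    change IsOpen {g : G | g • a = y}
    rw [e]
    exact isOpen_empty

theorem kum (h1 : DlogStatement.{u}) (h2 : DiscStatement.{u}) : KumStatement.{u} := by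
  classical
  intro F Ω _ _ _ _ _ ζ hζ
  obtain ⟨l1, l2, l3⟩ := h1 Ω 7 ζ hζ
  have hζ' : IsPrimitiveRoot (ζ : Ω) 7 := IsPrimitiveRoot.coe_units_iff.2 hζ
  have hne : NeZero ((7 : ℕ) : Ω) := hζ'.neZero'
  have h7 : ζ ^ 7 = 1 := hζ.pow_eq_one
  have hroot : ∀ b : Ωˣ, (root7 b) ^ 7 = b := by
    intro b
    have hex : ∃ θ : Ωˣ, θ ^ 7 = b := by
      obtain ⟨z, hz⟩ := IsSepClosed.exists_pow_nat_eq (b : Ω) 7
      have hz0 : z ≠ 0 := by
        intro h0
        rw [h0, zero_pow (by norm_num)] at hz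
        exact b.ne_zero hz.symm
      refine ⟨Units.mk0 z hz0, Units.ext ?_⟩
      simpa using hz
    unfold root7
    rw [dif_pos hex]
    exact hex.choose_spec
  have hinj : ∀ i j : ZMod 7, ζ ^ i.val = ζ ^ j.val → i = j := by
    intro i j h
    rw [← l3 i, ← l3 j, h]
  have hmod : ∀ m : ℕ, ζ ^ m = ζ ^ ((m : ZMod 7)).val := by
    intro m
    rw [ZMod.val_natCast]
    exact pow_eq_pow_mod m h7
  have hadd : ∀ i j : ZMod 7, ζ ^ i.val * ζ ^ j.val = ζ ^ (i + j).val := by
    intro i j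
    rw [← pow_add, hmod (i.val + j.val)]
    have e : ((i.val + j.val : ℕ) : ZMod 7) = i + j := by
      push_cast
      rw [ZMod.natCast_zmod_val, ZMod.natCast_zmod_val]
    rw [e]
  have hfix : ∀ (h : HZ F ζ) (n : ℕ), h • (ζ ^ n) = ζ ^ n := by
    intro h n
    have : h • ζ = ζ := h.2
    rw [smul_pow', this]
  have hfixb : ∀ (b : Ωˣ), InL F ζ b → ∀ h : HZ F ζ, h • b = b := fun b hb h => hb h h.2
  have hr0 : ∀ b : Ωˣ, InL F ζ b → ∀ h : HZ F ζ, ((h • root7 b) * (root7 b)⁻¹) ^ 7 = 1 := by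
    intro b hb h
    rw [mul_pow, ← smul_pow', hroot, hfixb b hb, inv_pow, hroot, mul_inv_cancel]
  have hr : ∀ b : Ωˣ, InL F ζ b → ∀ h : HZ F ζ, h • root7 b = ζ ^ (BR7.kum F ζ b h).val * root7 b := by
    intro b hb h
    have := l1 _ (hr0 b hb h)
    unfold BR7.kum
    rw [this]
    group
  have h2' : ∀ b θ : Ωˣ, InL F ζ b → θ ^ 7 = b → ∀ h : HZ F ζ,
      h • θ = ζ ^ (BR7.kum F ζ b h).val * θ := by
    intro b θ hb hθ h
    have e : (θ * (root7 b)⁻¹) ^ 7 = 1 := by
      rw [mul_pow, inv_pow, hroot, hθ, mul_inv_cancel]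
    have e2 := l1 _ e
    have e3 : θ = ζ ^ (dlog 7 ζ (θ * (root7 b)⁻¹)).val * root7 b := by rw [e2]; group
    calc h • θ = h • (ζ ^ (dlog 7 ζ (θ * (root7 b)⁻¹)).val * root7 b) := by rw [← e3]
      _ = ζ ^ (dlog 7 ζ (θ * (root7 b)⁻¹)).val * (ζ ^ (BR7.kum F ζ b h).val * root7 b) := by
        rw [smul_mul', hfix, hr b hb]
      _ = ζ ^ (BR7.kum F ζ b h).val * (ζ ^ (dlog 7 ζ (θ * (root7 b)⁻¹)).val * root7 b) := by
        rw [mul_left_comm]
      _ = _ := by rw [← e3]
  refine ⟨hroot, h2', ?_, ?_, ?_, ?_⟩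
  · intro b hb g h
    have e : ((g * h) • root7 b) = ζ ^ (BR7.kum F ζ b g).val * (ζ ^ (BR7.kum F ζ b h).val * root7 b) := by
      rw [mul_smul, hr b hb h, smul_mul', hfix, hr b hb g, mul_left_comm]
    rw [hr b hb (g * h), ← mul_assoc, hadd] at e
    exact hinj _ _ (mul_right_cancel e)
  · intro b _
    have hlc : IsLocallyConstant (fun g : (Ω ≃ₐ[F] Ω) => g • root7 b) := lc_smul (h2 F Ω) _
    have hlc2 : IsLocallyConstant (fun g : HZ F ζ => g • root7 b) :=
      hlc.comp_continuous continuous_subtype_val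
    exact hlc2.comp (fun x => dlog 7 ζ (x * (root7 b)⁻¹))
  · intro b b' hb hb' h
    have hbb : InL F ζ (b * b') := by
      intro g hg
      rw [smul_mul', hb g hg, hb' g hg]
    have e1 := h2' (b * b') (root7 b * root7 b') hbb (by rw [mul_pow, hroot, hroot]) h
    rw [smul_mul', hr b hb, hr b' hb', mul_mul_mul_comm, hadd] at e1
    exact (hinj _ _ (mul_right_cancel e1)).symm
  · intro γ k hγ b hb
    have hγb : InL F ζ (γ • b) := by
      intro g hg
      have e : (γ⁻¹ * g * γ) • ζ = ζ := by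
        rw [mul_smul, mul_smul, hγ, smul_pow', hg, ← hγ, inv_smul_smul]
      have e2 := hb _ e
      rw [mul_smul, mul_smul, inv_smul_eq_iff] at e2
      exact e2
    refine ⟨hγb, fun h h' hh => ?_⟩
    have e1 := h2' (γ • b) (γ • root7 b) hγb (by rw [← smul_pow', hroot]) h
    have e2 : h • (γ • root7 b) = γ • (h' • root7 b) := by
      change (h : Ω ≃ₐ[F] Ω) • (γ • root7 b) = γ • ((h' : Ω ≃ₐ[F] Ω) • root7 b)
      rw [hh, ← mul_smul, ← mul_smul]
      congr 1
      group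
    rw [e2, hr b hb, smul_mul', smul_pow', hγ, ← pow_mul] at e1
    have e3 := mul_right_cancel e1
    rw [hmod] at e3
    have e4 := hinj _ _ e3
    rw [← e4]
    push_cast
    rw [ZMod.natCast_zmod_val]

end BR7.H22
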