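import Pool.Agent.Lib.MP_defcf3_al.BR.Base

/-!
Modules REL and FIX of project BR7 (MP_defcf3_al).
-/

namespace BR7.H22

universe u

open BR7

theorem mem_adjoin_of_fixed {F Ω : Type u} [Field F] [Field Ω] [Algebra F Ω] [IsGalois F Ω] (ζ : Ωˣ) (a : Ω)
    (ha : ∀ g : Ω ≃ₐ[F] Ω, g • ζ = ζ → g a = a) : a ∈ Algebra.adjoin F {(ζ : Ω)} := by
  have h1 : a ∈ IntermediateField.fixedField
      (IntermediateField.fixingSubgroup (IntermediateField.adjoin F {(ζ : Ω)})) := by
    rw [IntermediateField.mem_fixedField_iff]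
    intro g hg
    apply ha
    rw [IntermediateField.mem_fixingSubgroup_iff] at hg
    apply Units.ext
    exact hg _ (IntermediateField.mem_adjoin_simple_self F (ζ : Ω))
  rw [InfiniteGalois.fixedField_fixingSubgroup] at h1
  have h2 : IsIntegral F (ζ : Ω) := Algebra.IsIntegral.isIntegral _
  rw [← IntermediateField.mem_toSubalgebra, IntermediateField.adjoin_simple_toSubalgebra_of_isAlgebraic
    (Algebra.IsAlgebraic.isAlgebraic _)] at h1
  exact h1

/-- Span of 1, z, z^2 is closed under multiplication by z if z^3 lies in it. -/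
theorem mul_mem_span3 {E Ω : Type u} [Field E] [Field Ω] [Algebra E Ω] (z : Ω)
    (h3 : z ^ 3 ∈ Submodule.span E ({1, z, z ^ 2} : Set Ω)) :
    ∀ x ∈ Submodule.span E ({1, z, z ^ 2} : Set Ω),
      z * x ∈ Submodule.span E ({1, z, z ^ 2} : Set Ω) := by
  intro x hx
  induction hx using Submodule.span_induction with
  | mem x hx =>
    rcases hx with rfl | rfl | rfl
    · rw [mul_one]; exact Submodule.subset_span (by simp)
    · have : x * x = x ^ 2 := by ring
      rw [this]; exact Submodule.subset_span (by simp)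
    · have : z * z ^ 2 = z ^ 3 := by ring
      rw [this]; exact h3
  | zero => simp
  | add x y _ _ hx hy => rw [mul_add]; exact Submodule.add_mem _ hx hy
  | smul c x _ hx => rw [mul_smul_comm]; exact Submodule.smul_mem _ _ hx

theorem pow_mem_span3 {E Ω : Type u} [Field E] [Field Ω] [Algebra E Ω] (z : Ω)
    (h3 : z ^ 3 ∈ Submodule.span E ({1, z, z ^ 2} : Set Ω)) (n : ℕ) :
    z ^ n ∈ Submodule.span E ({1, z, z ^ 2} : Set Ω) := by
  have hmul := mul_mem_span3 z h3
  induction n with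
  | zero => rw [pow_zero]; exact Submodule.subset_span (by simp)
  | succ n ih =>
    have h := hmul _ ih
    have e : z * z ^ n = z ^ (n + 1) := by ring
    rw [e] at h
    exact h

/-- Elements of F[z] lie in the E-span of 1, z, z^2 if E contains F and z^3 lies in that span. -/
theorem adjoin_sub_span3 {F E Ω : Type u} [Field F] [Field E] [Field Ω] [Algebra F Ω] [Algebra E Ω] (z : Ω)
    (hFE : ∀ f : F, ∃ e : E, algebraMap E Ω e = algebraMap F Ω f)
    (h3 : z ^ 3 ∈ Submodule.span E ({1, z, z ^ 2} : Set Ω)) :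
    ∀ x ∈ Algebra.adjoin F {z}, x ∈ Submodule.span E ({1, z, z ^ 2} : Set Ω) := by
  intro x hx
  rw [Algebra.adjoin_singleton_eq_range_aeval] at hx
  obtain ⟨p, rfl⟩ := hx
  change Polynomial.aeval z p ∈ _
  rw [Polynomial.aeval_eq_sum_range]
  refine Submodule.sum_mem _ (fun i _ => ?_)
  obtain ⟨e, he⟩ := hFE (p.coeff i)
  rw [Algebra.smul_def, ← he, ← Algebra.smul_def]
  exact Submodule.smul_mem _ _ (pow_mem_span3 z h3 i)

/-- Four vectors in the span of 1, z, z^2 are dependent. -/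
theorem dep4 {E Ω : Type u} [Field E] [Field Ω] [Algebra E Ω] (z : Ω)
    (v : Fin 4 → Ω) (hv : ∀ i, v i ∈ Submodule.span E ({1, z, z ^ 2} : Set Ω)) :
    ∃ g : Fin 4 → E, ∑ i, g i • v i = 0 ∧ ∃ i, g i ≠ 0 := by
  classical
  rw [← Fintype.not_linearIndependent_iff]
  intro hli
  let s : Finset Ω := {1, z, z ^ 2}
  have hs : (s : Set Ω) = ({1, z, z ^ 2} : Set Ω) := by simp [s]
  have hc : s.card ≤ 3 := Finset.card_le_three
  rw [← hs] at hv
  let w : Fin 4 → Submodule.span E (s : Set Ω) := fun i => ⟨v i, hv i⟩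
  have hw : LinearIndependent E w := by
    apply LinearIndependent.of_comp (Submodule.subtype _)
    exact hli
  have h1 := hw.fintype_card_le_finrank
  have h2 := finrank_span_finset_le_card (R := E) s
  rw [Fintype.card_fin] at h1
  have h3 : Set.finrank E (s : Set Ω) = Module.finrank E (Submodule.span E (s : Set Ω)) := rfl
  omega

theorem rel : RelStatement.{u} := by
  intro F Ω _ _ _ _ ζ δ E h7 hj hδ hE a b ha hb
  obtain ⟨j, hj⟩ := hj
  -- F is contained in E
  have hFE : ∀ f : F, ∃ e : E, algebraMap E Ω e = algebraMap F Ω f := by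
    intro f
    refine ⟨⟨algebraMap F Ω f, (hE _).2 ⟨fun g _ => g.commutes f, δ.commutes f⟩⟩, rfl⟩
  have hcoe : ∀ (g : Ω ≃ₐ[F] Ω) (x : Ωˣ), ((g • x : Ωˣ) : Ω) = g x := fun g x => rfl
  -- δ ζ is fixed by the stabilizer
  have hzj : ∀ (g : Ω ≃ₐ[F] Ω), g • ζ = ζ → g (ζ : Ω) = ζ := by
    intro g hg
    rw [← hcoe, hg]
  have hδz : δ (ζ : Ω) = (ζ : Ω) ^ j := by
    rw [← hcoe, hj]; simp
  have hδ2 : δ (δ (ζ : Ω)) = (ζ : Ω) ^ (j * j) := by
    rw [hδz, map_pow, hδz, ← pow_mul]
  have hfix : ∀ (g : Ω ≃ₐ[F] Ω), g • ζ = ζ → ∀ n : ℕ, g ((ζ : Ω) ^ n) = (ζ : Ω) ^ n := by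
    intro g hg n
    rw [map_pow, hzj g hg]
  -- z^3 in the span
  have h3 : (ζ : Ω) ^ 3 ∈ Submodule.span E ({1, (ζ : Ω), (ζ : Ω) ^ 2} : Set Ω) := by
    rcases hδ with hδ | hδ
    · have h3' : δ (δ (δ (ζ : Ω))) = ζ := by
        have := congrArg (fun x : Ωˣ => (x : Ω)) hδ
        simpa [hcoe, pow_succ] using this
      have e1 : (ζ : Ω) + δ ζ + δ (δ ζ) ∈ E := by
        rw [hE]
        refine ⟨fun g hg => ?_, ?_⟩
        · rw [map_add, map_add, hδ2, hδz, hfix g hg, hfix g hg, hzj g hg]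
        · rw [map_add, map_add, h3']; ring
      have e2 : (ζ : Ω) * δ ζ + ζ * δ (δ ζ) + δ ζ * δ (δ ζ) ∈ E := by
        rw [hE]
        refine ⟨fun g hg => ?_, ?_⟩
        · simp only [map_add, map_mul]
          rw [hδ2, hδz, hfix g hg, hfix g hg, hzj g hg]
        · simp only [map_add, map_mul]
          rw [h3']; ring
      have e3 : (ζ : Ω) * δ ζ * δ (δ ζ) ∈ E := by
        rw [hE]
        refine ⟨fun g hg => ?_, ?_⟩
        · simp only [map_mul]
          rw [hδ2, hδz, hfix g hg, hfix g hg, hzj g hg]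
        · simp only [map_mul]
          rw [h3']; ring
      have key : (ζ : Ω) ^ 3 = (⟨_, e1⟩ : E) • (ζ : Ω) ^ 2 - (⟨_, e2⟩ : E) • (ζ : Ω) +
          (⟨_, e3⟩ : E) • (1 : Ω) := by
        simp only [Subfield.smul_def, smul_eq_mul]
        ring
      rw [key]
      refine Submodule.add_mem _ (Submodule.sub_mem _ ?_ ?_) ?_
      · exact Submodule.smul_mem _ _ (Submodule.subset_span (by simp))
      · exact Submodule.smul_mem _ _ (Submodule.subset_span (by simp))
      · exact Submodule.smul_mem _ _ (Submodule.subset_span (by simp))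
    · have h3' : δ (δ (ζ : Ω)) = ζ := by
        have := congrArg (fun x : Ωˣ => (x : Ω)) hδ
        simpa [hcoe, pow_succ] using this
      have e1 : (ζ : Ω) + δ ζ ∈ E := by
        rw [hE]
        refine ⟨fun g hg => ?_, ?_⟩
        · rw [map_add, hδz, hfix g hg, hzj g hg]
        · rw [map_add, h3']; ring
      have e2 : (ζ : Ω) * δ ζ ∈ E := by
        rw [hE]
        refine ⟨fun g hg => ?_, ?_⟩
        · simp only [map_mul]
          rw [hδz, hfix g hg, hzj g hg]
        · simp only [map_mul]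
          rw [h3']; ring
      have key : (ζ : Ω) ^ 3 = (⟨_, e1⟩ : E) • (ζ : Ω) ^ 2 - (⟨_, e2⟩ : E) • (ζ : Ω) := by
        simp only [Subfield.smul_def, smul_eq_mul]
        ring
      rw [key]
      refine Submodule.sub_mem _ ?_ ?_
      · exact Submodule.smul_mem _ _ (Submodule.subset_span (by simp))
      · exact Submodule.smul_mem _ _ (Submodule.subset_span (by simp))
  have hspan : ∀ x : Ω, (∀ g : Ω ≃ₐ[F] Ω, g • ζ = ζ → g x = x) →
      x ∈ Submodule.span E ({1, (ζ : Ω), (ζ : Ω) ^ 2} : Set Ω) :=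
    fun x hx => adjoin_sub_span3 (ζ : Ω) hFE h3 x (mem_adjoin_of_fixed ζ x hx)
  have ha' : ∀ g : Ω ≃ₐ[F] Ω, g • ζ = ζ → g (a : Ω) = a := by
    intro g hg
    rw [← hcoe, ha g hg]
  have hb' : ∀ g : Ω ≃ₐ[F] Ω, g • ζ = ζ → g (b : Ω) = b := by
    intro g hg
    rw [← hcoe, hb g hg]
  obtain ⟨g, hg, i, hi⟩ := dep4 (E := E) (ζ : Ω) ![(b : Ω), a * b, -1, -a] (by
    intro i
    apply hspan
    intro g hg
    fin_cases i
    · exact hb' g hg
    · change g ((a : Ω) * b) = a * b
      rw [map_mul, ha' g hg, hb' g hg]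
    · change g (-1 : Ω) = -1
      rw [map_neg, map_one]
    · change g (-(a : Ω)) = -a
      rw [map_neg, ha' g hg])
  simp only [Fin.sum_univ_four, Matrix.cons_val_zero, Matrix.cons_val_one, Matrix.cons_val,
    Subfield.smul_def, smul_eq_mul] at hg
  by_cases h34 : (g 0 : Ω) = 0 ∧ (g 1 : Ω) = 0
  · left
    rw [h34.1, h34.2] at hg
    have hg2 : (g 2 : Ω) + g 3 * a = 0 := by linear_combination -hg
    have h30 : (g 3 : Ω) ≠ 0 := by
      intro h0
      rw [h0] at hg2
      have h2 : (g 2 : Ω) = 0 := by simpa using hg2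
      apply hi
      apply Subtype.ext
      fin_cases i
      · exact h34.1
      · exact h34.2
      · exact h2
      · exact h0
    have : (a : Ω) = -(g 2 : Ω) / (g 3 : Ω) := by
      field_simp
      linear_combination hg2
    rw [this]
    exact E.div_mem (E.neg_mem (g 2).2) (g 3).2
  · right
    refine ⟨g 2, g 3, g 0, g 1, (g 2).2, (g 3).2, (g 0).2, (g 1).2, h34, ?_⟩
    linear_combination hg

end BR7.H22
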